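import Pool.Agent.H17.SD.Targets

/-!
# Row QDA of `sfg_modules`: the derivative of the minimal polynomial is a denominator
-/

set_option autoImplicit false

namespace Pool.Agent.H61.SFG

open MvPolynomial SC Pool.Agent.H27.LV
open Pool.Agent.H92.SF Pool.Agent.H3.SF Pool.Agent.H17.SD

theorem mem_PB {k F ι : Type} [Field k] [Field F] [Algebra k F] (u : ι → F) (θ a : F) :
    a ∈ Algebra.adjoin (PA k u) {θ} ↔ a ∈ PB k u θ := by
  have h1 : (insert θ (Set.range u) : Set F) = Set.range u ∪ {θ} := Set.union_singleton.symm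
  have h2 : PB k u θ = (Algebra.adjoin (PA k u) {θ}).restrictScalars k := by
    unfold PB
    rw [h1]
    exact Algebra.adjoin_union_eq_adjoin_adjoin k (Set.range u) {θ}
  rw [h2]
  exact Iff.rfl

open IntermediateField.algebraAdjoinAdjoin in
/-- the derivative of the minimal polynomial is a denominator -/
theorem pf_QDA (h1 : T_ITA) : T_QDA := by
  intro k F ι _ _ _ _ u θ hu hfd htop hθ
  have := hfd
  have : IsIntegrallyClosed (PA k u) :=
    IsIntegrallyClosed.of_equiv (hu.aevalEquiv : MvPolynomial ι k ≃ₐ[k] PA k u).toRingEquiv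
  have : CharZero F := charZero_of_injective_algebraMap (algebraMap k F).injective
  have : CharZero (kF k u) := charZero_of_injective_algebraMap (algebraMap k (kF k u)).injective
  have hθA : IsIntegral (PA k u) θ := (h1 k F ι u θ).1 hθ
  have hθK : IsIntegral (kF k u) θ := Algebra.IsIntegral.isIntegral θ
  have htop' : Algebra.adjoin (kF k u) {θ} = ⊤ := by
    rw [← IntermediateField.adjoin_simple_toSubalgebra_of_isAlgebraic hθK.isAlgebraic, htop]
    rfl
  have hsub := traceForm_dualSubmodule_adjoin (PA k u) (kF k u) htop' hθA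
  have hq0 : qd k u θ ≠ 0 := by
    unfold qd
    exact (Algebra.IsSeparable.isSeparable (kF k u) θ).aeval_derivative_ne_zero
      (minpoly.aeval _ _)
  have hone : ∀ a, Itg k u a → qd k u θ * a ∈ PB k u θ := by
    intro a ha
    have haA : IsIntegral (PA k u) a := (h1 k F ι u a).1 ha
    have h2 : a ∈ (Algebra.traceForm (kF k u) F).dualSubmodule
        (Subalgebra.toSubmodule (Algebra.adjoin (PA k u) {θ})) := by
      rw [LinearMap.BilinForm.mem_dualSubmodule]
      intro y hy
      have hy' : IsIntegral (PA k u) y := by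
        have h3 : Algebra.adjoin (PA k u) {θ} ≤ integralClosure (PA k u) F :=
          adjoin_le_integralClosure hθA
        exact h3 hy
      have h4 : IsIntegral (PA k u) (Algebra.traceForm (kF k u) F a y) := by
        rw [Algebra.traceForm_apply]
        exact Algebra.isIntegral_trace (haA.mul hy')
      obtain ⟨z, hz⟩ := IsIntegrallyClosed.isIntegral_iff.1 h4
      rw [Submodule.mem_one]
      exact ⟨z, hz⟩
    rw [hsub] at h2
    obtain ⟨b, hb, hab⟩ := (Submodule.mem_smul_pointwise_iff_exists _ _ _).1 h2
    have h5 : qd k u θ * a = b := by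
      rw [← hab, smul_eq_mul]
      exact mul_inv_cancel_left₀ hq0 b
    rw [h5, ← mem_PB]
    exact hb
  refine ⟨hone, ?_, hq0⟩
  have h6 := hone 1 ((h1 k F ι u 1).2 isIntegral_one)
  rwa [mul_one] at h6

end Pool.Agent.H61.SFG
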